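import Mathlib
import Pool.Agent.Lib.MP_d328cc_gt.NotAR

namespace Pool.Agent.Results.MP_d328cc_gt.Counterexample

/-- A contractible, homogeneous compact metric space of infinite covering dimension which is
not homeomorphic to the Hilbert cube and is not even a retract of it. -/
theorem result : ∃ (X : Type) (_ : MetricSpace X) (_ : CompactSpace X),
    ContractibleSpace X ∧
    (∀ x y : X, ∃ h : X ≃ₜ X, h x = y) ∧
    (∀ n : ℕ, ∃ m : ℕ, ∃ U : Fin m → Set X,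
      (∀ i, IsOpen (U i)) ∧ (⋃ i, U i) = Set.univ ∧
      ∀ k : ℕ, ∀ V : Fin k → Set X,
        (∀ j, IsOpen (V j)) → (⋃ j, V j) = Set.univ → (∀ j, ∃ i, V j ⊆ U i) →
        ∃ x : X, ∃ s : Finset (Fin k), s.card = n + 2 ∧ ∀ j ∈ s, x ∈ V j) ∧
    IsEmpty (X ≃ₜ (ℕ → unitInterval)) ∧
    ¬ ∃ (i : C(X, ℕ → unitInterval)) (ρ : C(ℕ → unitInterval, X)), ∀ z, ρ (i z) = z :=
  ⟨Pool.Agent.Lib.MP_d328cc_gt.CE.X, inferInstance, inferInstance,
    Pool.Agent.Lib.MP_d328cc_gt.CE.contractible, Pool.Agent.Lib.MP_d328cc_gt.CE.homogeneous,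
    Pool.Agent.Lib.MP_d328cc_gt.CE.infinite_dim, ⟨Pool.Agent.Lib.MP_d328cc_gt.CE.not_cube⟩,
    fun ⟨i, ρ, h⟩ => Pool.Agent.Lib.MP_d328cc_gt.CE.not_retract i ρ h⟩

end Pool.Agent.Results.MP_d328cc_gt.Counterexample
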