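import Mathlib
import Pool.Agent.Lib.MP_d328cc_gt.Iso

namespace Pool.Agent.Results.MP_d328cc_gt.IsotopyHomogeneous

/-- A contractible compact metric space in which every point is carried to every other point by
an isotopy starting at the identity is locally contractible. -/
theorem result (X : Type) [MetricSpace X] [CompactSpace X] [ContractibleSpace X]
    (h : ∀ x y : X, ∃ α : unitInterval → X ≃ₜ X,
      Continuous (fun q : unitInterval × X => α q.1 q.2) ∧ (∀ w, α 0 w = w) ∧ α 1 x = y) :
    LocallyContractibleSpace X :=
  Pool.Agent.Lib.MP_d328cc_gt.locallyContractible_iso h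

end Pool.Agent.Results.MP_d328cc_gt.IsotopyHomogeneous
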