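import Mathlib
import Pool.Agent.Lib.MP_d328cc_gt.Main

open Set Metric Topology

namespace Pool.Agent.Results.MP_d328cc_gt.LocallyPathConnected

/-- A homogeneous compact metric space that is homotopy dominated by a locally path connected
space is locally path connected. -/
theorem result (X : Type) [MetricSpace X] [CompactSpace X]
    (hom : ∀ x y : X, ∃ h : X ≃ₜ X, h x = y)
    (Y : Type) [TopologicalSpace Y] [LocallyPathConnectedSpace Y]
    (f : C(X, Y)) (g : C(Y, X)) (hfg : (ContinuousMap.id X).Homotopic (g.comp f)) :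
    LocallyPathConnectedSpace X := by
  obtain ⟨F⟩ := hfg
  refine Pool.Agent.Lib.MP_d328cc_gt.locallyPathConnected hom (H := fun t x => F (t, x))
    F.continuous (fun x => F.apply_zero x) ?_
  intro ε hε
  have e1 : ∀ y, F (1, y) = g (f y) := fun y => F.apply_one y
  simp only [e1]
  let V : X → Set Y := fun z => pathComponentIn (g ⁻¹' ball (g (f z)) (ε / 2)) (f z)
  have hV : ∀ z, f ⁻¹' V z ∈ 𝓝 z := fun z =>
    f.continuous.continuousAt.preimage_mem_nhds (pathComponentIn_mem_nhds
      ((isOpen_ball.preimage g.continuous).mem_nhds (mem_ball_self (by positivity))))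
  obtain ⟨η, hη, hl⟩ := lebesgue_number_lemma_of_metric (isCompact_univ (X := X))
    (c := fun z => interior (f ⁻¹' V z)) (fun z => isOpen_interior)
    (fun z _ => mem_iUnion.mpr ⟨z, mem_interior_iff_mem_nhds.mpr (hV z)⟩)
  refine ⟨η, hη, fun y y' hy => ?_⟩
  obtain ⟨z, hz'⟩ := hl y (mem_univ y)
  have hz := hz'.trans interior_subset
  have a1 : f y ∈ V z := hz (mem_ball_self hη)
  have a2 : f y' ∈ V z := hz (by rwa [mem_ball, dist_comm])
  have b1 : JoinedIn (g ⁻¹' ball (g (f z)) (ε / 2)) (f z) (f y) := a1
  have b2 : JoinedIn (g ⁻¹' ball (g (f z)) (ε / 2)) (f z) (f y') := a2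
  refine ((b2.symm.trans b1).map g.continuous).mono ?_
  rintro _ ⟨w, hw, rfl⟩
  have c1 := mem_ball.mp hw
  have c2 := mem_ball.mp b1.target_mem
  have := dist_triangle_right (g w) (g (f y)) (g (f z))
  rw [mem_ball]
  linarith

/-- The contractible case (the spaces of Q1): take `Y` to be a point. -/
theorem of_contractible (X : Type) [MetricSpace X] [CompactSpace X]
    (hom : ∀ x y : X, ∃ h : X ≃ₜ X, h x = y) [ContractibleSpace X] :
    LocallyPathConnectedSpace X := by
  obtain ⟨p, hp⟩ := id_nullhomotopic X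
  exact result X hom Unit (ContinuousMap.const X ()) (ContinuousMap.const Unit p) hp

end Pool.Agent.Results.MP_d328cc_gt.LocallyPathConnected
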