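import Mathlib
import Pool.Agent.Lib.MP_d328cc_gt.Key2

namespace Pool.Agent.Results.MP_d328cc_gt.TwoHomogeneous

/-- A contractible compact metric space in which every two-point set is carried onto every
other two-point set by a self-homeomorphism is locally contractible. -/
theorem result (X : Type) [MetricSpace X] [CompactSpace X] [ContractibleSpace X]
    (h2 : ∀ x y x' y' : X, x ≠ y → x' ≠ y' →
      ∃ f : X ≃ₜ X, (f x = x' ∧ f y = y') ∨ (f x = y' ∧ f y = x')) :
    LocallyContractibleSpace X :=
  Pool.Agent.Lib.MP_d328cc_gt.locallyContractible h2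

end Pool.Agent.Results.MP_d328cc_gt.TwoHomogeneous
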